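import Pool.Agent.Helper21.AC0p.Defs

/-!
Graded window modules for a CNF: the algebraic structures from which lower bounds for
refutations with `MOD_p` connectives are derived (`window_lower`).
-/

namespace Pool.Agent.Frege

open Pool.Agent.Helper21.AC0p

/-- A graded window module for the CNF `F` over a field `K` (of characteristic `p`): a
commutative algebra `𝒞` acting on a space `𝓜` with graded pieces `G j`; the element `t` of
degree one plays the role of `1`, the element `x i` that of the variable `i`.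
The clause axiom says that some power `t ^ m`, `m ≤ m0`, is a combination of the literals of
the clause with coefficients homogeneous of degree `m - 1`. -/
structure Win (F : List Clause) (m0 : ℕ) (K 𝒞 𝓜 : Type) [Field K] [CommRing 𝒞] [Algebra K 𝒞]
    [AddCommGroup 𝓜] [Module K 𝓜] [Module 𝒞 𝓜] [IsScalarTower K 𝒞 𝓜] where
  /-- graded pieces -/
  G : ℕ → Submodule K 𝓜
  /-- the homogenising variable -/
  t : 𝒞
  /-- the variables -/
  x : ℕ → 𝒞
  t_mem : ∀ j, ∀ Q ∈ G j, t • Q ∈ G (j + 1)
  x_mem : ∀ i j, ∀ Q ∈ G j, x i • Q ∈ G (j + 1)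
  idem : ∀ i, x i * x i = t * x i
  clause : ∀ C ∈ F, ∃ m, m ≤ m0 ∧ ∃ a : Lit → 𝒞,
    (∀ l ∈ C, ∀ j, ∀ Q ∈ G j, a l • Q ∈ G (j + m)) ∧
      t ^ (m + 1) = (C.map (fun l => a l * (if l.2 then x l.1 else t - x l.1))).sum
  fin : ∀ j, FiniteDimensional K (G j)

end Pool.Agent.Frege
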