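import Pool.Agent.Helper94.FW.Assembly
import Pool.Agent.Helper26.Frege.AvgBridge

/-!
The abstract size lower bound for refutations with unbounded fan-in disjunctions and `MOD_p`
connectives, from window modules.
-/

set_option autoImplicit false

namespace Pool.Agent.Frege

open Pool.Agent.Helper21.AC0p

/-- Size lower bound from window modules. -/
theorem window_lower (p : ℕ) (hp : p.Prime) (R : List Rule) (hR : ∀ r ∈ R, r.Sound p)
    (m0 : ℕ) :
    ∃ C0 : ℕ, ∀ d l w : ℕ, 1 ≤ l → C0 * (l * p) ^ (d + 2) ≤ w →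
      ∀ (F : List Clause) (K 𝒞 𝓜 : Type) [Field K] [CommRing 𝒞] [Algebra K 𝒞]
        [AddCommGroup 𝓜] [Module K 𝓜] [Module 𝒞 𝓜] [IsScalarTower K 𝒞 𝓜] [CharP K p]
        (W : Win F m0 K 𝒞 𝓜) (π : List Fm), Refutation R F π → (∀ A ∈ π, A.depth ≤ d) →
        ∀ H : ℕ, (∀ j ≤ w, Module.finrank K (W.G j) ≤ H) →
        p ^ l * Module.finrank K ((W.G 0).map
          (Algebra.lsmul K K 𝓜 (W.t ^ w) : 𝓜 →ₗ[K] 𝓜)) ≤ (psize π) ^ 2 * C0 * H := by
  have : Fact p.Prime := ⟨hp⟩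
  refine Pool.Agent.Helper94.FW.window_lower_aux p hp R hR m0 ?_
  intro K 𝒞 𝓜 _ _ _ _ _ _ _ _ _ G t w l H hfin ht hH
  exact Pool.Agent.Helper26.Frege.avg_holds ht hfin hH

end Pool.Agent.Frege
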